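import Pool.Agent.Y915.Stm2
import Pool.Agent.Y240.PC.TR

set_option autoImplicit false

/-!
# Algebraic power series inside the algebraic closure of `Frac A`, with derivations
-/

namespace Pool.Agent.Y668.PC

open Pool.Agent.Y915 Pool.Agent.Y240.PC
open scoped PowerSeries Polynomial

/-- clearing denominators -/
theorem clear1 (p : ℚ[X]) : ∃ N : ℤ, N ≠ 0 ∧ ∃ q : ℤ[X],
    q.map (Int.castRingHom ℚ) = Polynomial.C (N : ℚ) * p := by
  induction p using Polynomial.induction_on' with
  | add p q hp hq =>
    obtain ⟨N, hN, p', hp'⟩ := hp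
    obtain ⟨M, hM, q', hq'⟩ := hq
    refine ⟨N * M, mul_ne_zero hN hM, Polynomial.C M * p' + Polynomial.C N * q', ?_⟩
    rw [Polynomial.map_add, Polynomial.map_mul, Polynomial.map_mul, hp', hq', Polynomial.map_C,
      Polynomial.map_C]
    push_cast
    rw [map_mul]
    simp only [eq_intCast]
    ring
  | monomial n a =>
    refine ⟨a.den, by exact_mod_cast a.den_ne_zero, Polynomial.monomial n a.num, ?_⟩
    rw [Polynomial.map_monomial, Polynomial.C_mul_monomial]
    congr 1
    rw [eq_intCast]
    push_cast
    exact (Rat.den_mul_eq_num a).symm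

theorem clear2 (p : ℚ[X][X]) : ∃ N : ℤ, N ≠ 0 ∧ ∃ q : ℤ[X][X],
    q.map (Polynomial.mapRingHom (Int.castRingHom ℚ)) =
      Polynomial.C (Polynomial.C (N : ℚ)) * p := by
  induction p using Polynomial.induction_on' with
  | add p q hp hq =>
    obtain ⟨N, hN, p', hp'⟩ := hp
    obtain ⟨M, hM, q', hq'⟩ := hq
    refine ⟨N * M, mul_ne_zero hN hM,
      Polynomial.C (Polynomial.C M) * p' + Polynomial.C (Polynomial.C N) * q', ?_⟩
    rw [Polynomial.map_add, Polynomial.map_mul, Polynomial.map_mul, hp', hq', Polynomial.map_C,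
      Polynomial.map_C, Polynomial.coe_mapRingHom, Polynomial.map_C, Polynomial.map_C]
    push_cast
    simp only [eq_intCast, map_mul]
    ring
  | monomial n a =>
    obtain ⟨N, hN, q, hq⟩ := clear1 a
    refine ⟨N, hN, Polynomial.monomial n q, ?_⟩
    rw [Polynomial.map_monomial, Polynomial.C_mul_monomial, Polynomial.coe_mapRingHom, hq]

section main
variable {A : Type} [CommRing A] [IsDomain A] [CharZero A] {d : A → A} {x : A} {e : A →+* ℤ}
  {τ : A →+* ℤ⟦X⟧}

/-- the polynomials in `A` -/
noncomputable abbrev io (x : A) : ℤ[X] →+* A := Polynomial.eval₂RingHom (Int.castRingHom A) x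

theorem tau_io (hx : τ x = PowerSeries.X) (P : ℤ[X]) : τ (io x P) = (P : ℤ⟦X⟧) := by
  have h : τ.comp (io x) = Polynomial.coeToPowerSeries.ringHom := by
    apply Polynomial.ringHom_ext
    · intro a
      simp
    · simp [hx]
  exact congrArg (fun f : ℤ[X] →+* ℤ⟦X⟧ => f P) h

theorem io_inj (hx : τ x = PowerSeries.X) : Function.Injective (io x) := by
  intro P Q h
  apply Polynomial.coe_injective ℤ
  rw [← tau_io hx, ← tau_io hx, h]

theorem d_one (h : IsTay A d x e) : d 1 = 0 := by
  have := h.mul 1 1
  rw [one_mul, one_mul] at this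
  linear_combination -this

theorem d_zero (h : IsTay A d x e) : d 0 = 0 := by
  have := h.add 0 0
  rw [add_zero] at this
  linear_combination -this

theorem d_nat (h : IsTay A d x e) (n : ℕ) : d (n : A) = 0 := by
  induction n with
  | zero => rw [Nat.cast_zero, d_zero h]
  | succ n ih => rw [Nat.cast_succ, h.add, ih, d_one h, add_zero]

theorem d_int (h : IsTay A d x e) (n : ℤ) : d (n : A) = 0 := by
  have h1 : ∀ m : ℕ, d (-(m : A)) = 0 := by
    intro m
    have h2 := h.add (m : A) (-(m : A))
    rw [add_neg_cancel, d_zero h, d_nat h, zero_add] at h2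
    exact h2.symm
  rcases Int.eq_nat_or_neg n with ⟨m, rfl | rfl⟩
  · rw [Int.cast_natCast, d_nat h]
  · rw [Int.cast_neg, Int.cast_natCast, h1]

theorem d_io (h : IsTay A d x e) (P : ℤ[X]) : d (io x P) = io x (Polynomial.derivative P) := by
  induction P using Polynomial.induction_on' with
  | add p q hp hq => rw [map_add, h.add, hp, hq, map_add, map_add]
  | monomial n a =>
    rw [Polynomial.derivative_monomial]
    simp only [Polynomial.coe_eval₂RingHom, Polynomial.eval₂_monomial, eq_intCast]
    rw [h.mul, d_int h, der_pow d h.mul, h.dx]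
    push_cast
    ring

/-- power series given by elements of `A` are algebraic -/
theorem alg_tau (h : IsTay A d x e) (hx : τ x = PowerSeries.X) (g : A) :
    cst ℚ (τ g) ∈ Subalgebra.algebraicClosure ℚ[X] ℚ⟦X⟧ := by
  obtain ⟨P, hP, hP0⟩ := h.alg g
  refine ⟨P.map (Polynomial.mapRingHom (Int.castRingHom ℚ)), ?_, ?_⟩
  · intro h0
    apply hP
    have hinj : Function.Injective (Polynomial.mapRingHom (Int.castRingHom ℚ)) := by
      rw [Polynomial.coe_mapRingHom]
      exact Polynomial.map_injective _ (Int.cast_injective (α := ℚ))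
    apply Polynomial.map_injective _ hinj
    rw [Polynomial.map_zero]
    exact h0
  · have h1 := congrArg ((cst ℚ).comp τ) hP0
    rw [map_zero, Polynomial.hom_eval₂] at h1
    rw [Polynomial.aeval_def, Polynomial.eval₂_map, ← h1]
    change _ = Polynomial.eval₂ _ (cst ℚ (τ g)) P
    congr 1
    apply Polynomial.ringHom_ext
    · intro a
      simp
    · simp only [RingHom.comp_apply, Polynomial.coe_mapRingHom, Polynomial.map_X,
        Polynomial.coe_eval₂RingHom, Polynomial.eval₂_X, hx, PowerSeries.map_X]
      exact Polynomial.coe_X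

end main

theorem trO : StTrO := by
  intro A _ _ _ d x e τ h hτ hx hd
  have hcst : Function.Injective (cst ℚ) := by
    intro f g hfg
    ext m
    have := congrArg (PowerSeries.coeff m) hfg
    simpa using this
  -- the algebra structures
  let B := Subalgebra.algebraicClosure ℚ[X] ℚ⟦X⟧
  let ph : A →+* B := ((cst ℚ).comp τ).codRestrict B (fun g => alg_tau h hx g)
  letI : Algebra A B := ph.toAlgebra
  letI : Algebra A ℚ⟦X⟧ := ((cst ℚ).comp τ).toAlgebra
  have hph : ∀ g : A, ((algebraMap A B g : B) : ℚ⟦X⟧) = cst ℚ (τ g) := fun g => rfl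
  have hphinj : Function.Injective (algebraMap A B) := by
    intro a b hab
    have h1 := congrArg Subtype.val hab
    exact hτ (hcst h1)
  let ψ : B →ₐ[A] ℚ⟦X⟧ := { B.val.toRingHom with commutes' := fun g => rfl }
  have hψ : ∀ (b : B) (Q : A[X]), ((Polynomial.aeval b Q : B) : ℚ⟦X⟧) =
      Polynomial.aeval (b : ℚ⟦X⟧) Q := fun b Q => (Polynomial.aeval_algHom_apply ψ b Q).symm
  have hinjS : Function.Injective (algebraMap A ℚ⟦X⟧) := fun a b hab => hτ (hcst hab)
  have halgB : Algebra.IsAlgebraic A B := by
    refine ⟨fun b => ?_⟩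
    obtain ⟨P, hP, hP0⟩ := Algebra.IsAlgebraic.isAlgebraic (R := ℚ[X]) b
    obtain ⟨N, hN, Q, hQ⟩ := clear2 P
    refine ⟨Q.map (io x), ?_, ?_⟩
    · intro h0
      have h1 : Q = 0 := by
        apply Polynomial.map_injective _ (io_inj hx)
        rw [h0, Polynomial.map_zero]
      rw [h1, Polynomial.map_zero] at hQ
      have h2 : (Polynomial.C (Polynomial.C (N : ℚ)) : ℚ[X][X]) ≠ 0 := by
        rw [Ne, Polynomial.C_eq_zero, Polynomial.C_eq_zero]
        exact_mod_cast hN
      exact (mul_ne_zero h2 hP) hQ.symm
    · have e1 : (algebraMap A B).comp (io x) =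
          (algebraMap ℚ[X] B).comp (Polynomial.mapRingHom (Int.castRingHom ℚ)) := by
        apply Polynomial.ringHom_ext
        · intro a
          simp
        · apply Subtype.ext
          rw [RingHom.comp_apply, hph]
          simp only [Polynomial.coe_mapRingHom, Polynomial.map_X, RingHom.comp_apply,
            Polynomial.coe_eval₂RingHom, Polynomial.eval₂_X, hx, PowerSeries.map_X]
          exact Polynomial.coe_X.symm
      rw [Polynomial.aeval_def, Polynomial.eval₂_map, e1, ← Polynomial.eval₂_map, hQ,
        ← Polynomial.aeval_def, map_mul, hP0, mul_zero]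
  -- the target
  let Om := AlgebraicClosure (FractionRing A)
  have hom : Function.Injective (algebraMap A Om) := by
    rw [IsScalarTower.algebraMap_eq A (FractionRing A) Om]
    exact (algebraMap (FractionRing A) Om).injective.comp (IsFractionRing.injective A _)
  have htf : Module.IsTorsionFree A B := by
    rw [Module.isTorsionFree_iff_algebraMap_injective]
    exact hphinj
  have htf2 : Module.IsTorsionFree A Om := by
    rw [Module.isTorsionFree_iff_algebraMap_injective]
    exact hom
  haveI : CharZero Om := charZero_of_injective_algebraMap hom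
  let σ : B →ₐ[A] Om := IsAlgClosed.lift
  have hσinj : Function.Injective σ := by
    rw [injective_iff_map_eq_zero]
    intro b hb
    by_contra hb0
    have halg : IsAlgebraic A b := Algebra.IsAlgebraic.isAlgebraic b
    obtain ⟨r, hr, hdvd⟩ := halg.exists_nonzero_dvd (mem_nonZeroDivisors_of_ne_zero hb0)
    obtain ⟨c, hc⟩ := hdvd
    have h1 : σ (algebraMap A _ r) = 0 := by rw [hc, map_mul, hb, zero_mul]
    rw [AlgHom.commutes] at h1
    exact hr (hom (by rw [h1, map_zero]))
  -- the derivation
  have htr : Transcendental ℚ (algebraMap A Om x) := by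
    rintro ⟨P, hP, hP0⟩
    obtain ⟨N, hN, Q, hQ⟩ := clear1 P
    have h1 : algebraMap A Om (io x Q) = 0 := by
      have h2 : Polynomial.aeval (algebraMap A Om x) (Polynomial.C (N : ℚ) * P) = 0 := by
        rw [map_mul, hP0, mul_zero]
      rw [← hQ, Polynomial.aeval_def, Polynomial.eval₂_map] at h2
      rw [Polynomial.coe_eval₂RingHom, Polynomial.hom_eval₂, ← h2]
      congr 1
      exact RingHom.ext_int _ _
    have h3 : Q = 0 := io_inj hx (by rw [hom (h1.trans (map_zero _).symm), map_zero])
    rw [h3, Polynomial.map_zero] at hQ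
    have h4 : (Polynomial.C (N : ℚ) : ℚ[X]) ≠ 0 := by
      rw [Ne, Polynomial.C_eq_zero]
      exact_mod_cast hN
    exact (mul_ne_zero h4 hP) hQ.symm
  obtain ⟨D, hD⟩ := Pool.Agent.H135R2.VS.exists_der (K := ℚ) (κ := Unit)
    (x := fun _ => algebraMap A Om x) (algebraicIndependent_unique_type_iff.2 htr) (fun _ => 1)
  have hDx : D (algebraMap A Om x) = 1 := hD ()
  have hDint : ∀ z : ℤ, D (z : Om) = 0 := fun z => by
    have h1 := D.map_algebraMap (z : ℚ)
    rwa [eq_ratCast, Rat.cast_intCast] at h1
  have hDio : ∀ P : ℤ[X], D (algebraMap A Om (io x P)) =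
      algebraMap A Om (io x (Polynomial.derivative P)) := by
    intro P
    induction P using Polynomial.induction_on' with
    | add p q hp hq => rw [map_add, map_add, map_add, hp, hq, map_add, map_add, map_add]
    | monomial n a =>
      rw [Polynomial.derivative_monomial]
      simp only [Polynomial.coe_eval₂RingHom, Polynomial.eval₂_monomial, eq_intCast, map_mul,
        map_pow, map_intCast]
      rw [D.leibniz, hDint, D.leibniz_pow, hDx]
      simp only [smul_eq_mul, mul_zero, add_zero, mul_one, nsmul_eq_mul]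
      push_cast
      ring
  have hDA : ∀ g : A, D (algebraMap A Om g) = algebraMap A Om (d g) := by
    intro g
    letI : Algebra ℤ[X] A := (io x).toAlgebra
    letI : Algebra ℤ[X] Om := ((algebraMap A Om).comp (io x)).toAlgebra
    have halg : IsAlgebraic ℤ[X] g := by
      obtain ⟨P, hP, hP0⟩ := h.alg g
      exact ⟨P, hP, hP0⟩
    obtain ⟨P, hP0, hP1⟩ := exists_sep (A := ℤ[X]) (B := A) (io_inj hx) g halg
    obtain ⟨q, hq⟩ := exists_mc (fun a : ℤ[X] => Polynomial.derivative a) P
    have h1 := hq A d h.add h.mul (fun a => d_io h a) g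
    have h2 := hq Om (fun y => D y) (fun a b => map_add D a b) (fun a b => D.leibniz a b)
      (fun a => hDio a) (algebraMap A Om g)
    let χ : A →ₐ[ℤ[X]] Om := { algebraMap A Om with commutes' := fun _ => rfl }
    have hχ : ∀ Q : ℤ[X][X], Polynomial.aeval (algebraMap A Om g) Q =
        algebraMap A Om (Polynomial.aeval g Q) := fun Q => Polynomial.aeval_algHom_apply χ g Q
    simp only [hχ, hP0, map_zero] at h2
    rw [hP0, d_zero h] at h1
    have h3 := congrArg (algebraMap A Om) h1
    rw [map_zero, map_add, map_mul] at h3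
    have h4 : algebraMap A Om (Polynomial.aeval g (Polynomial.derivative P)) ≠ 0 := by
      intro h0
      exact hP1 (hom (by rw [h0, map_zero]))
    apply mul_left_cancel₀ h4
    linear_combination h3 - h2
  refine ⟨fun y => D y, σ.toRingHom, fun a b => map_add D a b, fun a b => D.leibniz a b, hDA,
    hσinj, fun g f hf => ?_, fun f g hfg => ?_⟩
  · have h1 : f = algebraMap A B g := Subtype.ext hf
    rw [h1]
    exact σ.commutes g
  · change σ g = D (σ f)
    have hfalg : IsAlgebraic A (f : ℚ⟦X⟧) := by
      obtain ⟨P, hP, hP0⟩ := Algebra.IsAlgebraic.isAlgebraic (R := A) (A := B) f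
      exact ⟨P, hP, by rw [← hψ, hP0]; rfl⟩
    obtain ⟨P, hP0, hP1⟩ := exists_sep hinjS (f : ℚ⟦X⟧) hfalg
    obtain ⟨q, hq⟩ := exists_mc d P
    have h1 := hq ℚ⟦X⟧ (fun f => PowerSeries.derivative ℚ f) dS_add dS_mul
      (fun a => by
        change PowerSeries.derivative ℚ (cst ℚ (τ a)) = cst ℚ (τ (d a))
        rw [derivative_cst, hd]) f
    simp only [hP0, map_zero] at h1
    have h2 : Polynomial.aeval f q + Polynomial.aeval f (Polynomial.derivative P) * g = 0 := by
      apply Subtype.ext
      rw [Subalgebra.coe_add, Subalgebra.coe_mul, hψ, hψ, hfg]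
      exact h1.symm
    have h3 := congrArg σ h2
    rw [map_add, map_mul, map_zero, ← Polynomial.aeval_algHom_apply,
      ← Polynomial.aeval_algHom_apply] at h3
    have h4 := hq Om (fun y => D y) (fun a b => map_add _ _ _)
      (fun a b => D.leibniz a b) hDA (σ f)
    have h5 : Polynomial.aeval (σ f) P = 0 := by
      rw [Polynomial.aeval_algHom_apply]
      have : Polynomial.aeval f P = 0 := by
        apply Subtype.ext
        rw [hψ, hP0]
        rfl
      rw [this, map_zero]
    simp only [h5, map_zero] at h4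
    have h6 : Polynomial.aeval (σ f) (Polynomial.derivative P) ≠ 0 := by
      rw [Polynomial.aeval_algHom_apply]
      intro h0
      have h7 : Polynomial.aeval f (Polynomial.derivative P) = 0 :=
        hσinj (by rw [h0, map_zero])
      apply hP1
      rw [← hψ, h7]
      rfl
    apply mul_left_cancel₀ h6
    linear_combination h3 + h4

end Pool.Agent.Y668.PC
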